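import Pool.Agent.R304.GR.Th

/-!
# Project HC, piece (TH) (helper31): the second derivative of the theta function
-/

set_option autoImplicit false

namespace Pool.Agent.T9h31.HC

open Complex Filter Topology Set
open H370 H370.DG Pool.Agent.R304.GR

lemma ne_gd (n : ℕ) {s : ℂ} (hs : -1 < s.re) : (n : ℝ) + 1 ≤ ‖s + ((n : ℂ) + 2)‖ := by
  refine le_trans ?_ (re_le_norm _)
  simp only [add_re, natCast_re, re_ofNat]
  linarith

lemma hasDerivAt_gd (n : ℕ) {s : ℂ} (hs : -1 < s.re) :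
    HasDerivAt (gd n) (1 / (s + (n + 2)) ^ 2) s := by
  have h0 := ne_gd n hs
  have hn : (0 : ℝ) ≤ n := Nat.cast_nonneg n
  have hne : s + ((n : ℂ) + 2) ≠ 0 := by
    intro h
    rw [h, norm_zero] at h0
    linarith
  have h1 : HasDerivAt (fun z : ℂ => z + ((n : ℂ) + 2)) 1 s := (hasDerivAt_id s).add_const _
  have h2 := (h1.inv hne).const_sub (Real.log ((n + 2 : ℝ) / (n + 1)) : ℂ)
  have h3 : gd n = fun z : ℂ => (Real.log ((n + 2 : ℝ) / (n + 1)) : ℂ) -
      (z + ((n : ℂ) + 2))⁻¹ := by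
    funext z
    unfold gd
    rw [one_div]
  rw [h3]
  exact h2.congr_deriv (by rw [neg_div, neg_neg])

lemma norm_gd' (n : ℕ) {s : ℂ} (hs : -1 < s.re) :
    ‖1 / (s + ((n : ℂ) + 2)) ^ 2‖ ≤ 1 / ((n : ℝ) + 1) ^ 2 := by
  have h0 := ne_gd n hs
  rw [norm_div, norm_one, norm_pow]
  apply one_div_le_one_div_of_le (by positivity)
  exact pow_le_pow_left₀ (by positivity) h0 2

lemma half_open : IsOpen {s : ℂ | -1 < s.re} := isOpen_lt continuous_const continuous_re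

lemma half_conv : IsPreconnected {s : ℂ | -1 < s.re} :=
  (convex_halfSpace_re_gt (-1)).isPreconnected

lemma hasDerivAt_tsum_gd {s : ℂ} (hs : -1 < s.re) :
    HasDerivAt (fun z => ∑' n, gd n z) (∑' n : ℕ, 1 / (s + ((n : ℂ) + 2)) ^ 2) s := by
  refine hasDerivAt_tsum_of_isPreconnected (g := gd)
    (g' := fun (n : ℕ) (z : ℂ) => 1 / (z + ((n : ℂ) + 2)) ^ 2)
    summable_inv_sq half_open half_conv
    (fun n y hy => hasDerivAt_gd n hy) (fun n y hy => norm_gd' n hy)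
    (y₀ := 0) (by simp) (summable_gd (by simp)) hs

/-- the digamma function -/
noncomputable def FF (s : ℂ) : ℂ := -(1 / s) - 1 / (s + 1) + ∑' n, gd n s

lemma hasDerivAt_FF {s : ℂ} (hs : 0 < s.re) :
    HasDerivAt FF (1 / s ^ 2 + 1 / (s + 1) ^ 2 + ∑' n : ℕ, 1 / (s + ((n : ℂ) + 2)) ^ 2) s := by
  have hs0 : s ≠ 0 := by
    intro h
    rw [h] at hs
    simp at hs
  have hs1 : s + 1 ≠ 0 := by
    intro h
    have := congrArg re h
    simp only [add_re, one_re, zero_re] at this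
    linarith
  have h1 : HasDerivAt (fun z : ℂ => -(1 / z)) (1 / s ^ 2) s := by
    have := (hasDerivAt_inv hs0).neg
    have h4 : (fun z : ℂ => -(1 / z)) = fun z => -z⁻¹ := by
      funext z
      rw [one_div]
    rw [h4]
    exact this.congr_deriv (by rw [neg_neg, one_div])
  have h2 : HasDerivAt (fun z : ℂ => 1 / (z + 1)) (-(1 / (s + 1) ^ 2)) s := by
    have h3 : HasDerivAt (fun z : ℂ => z + 1) 1 s := (hasDerivAt_id s).add_const _
    have := h3.inv hs1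
    have h4 : (fun z : ℂ => 1 / (z + 1)) = fun z => (z + 1)⁻¹ := by
      funext z
      rw [one_div]
    rw [h4]
    exact this.congr_deriv (by rw [neg_div])
  have h3 := (h1.sub h2).add (hasDerivAt_tsum_gd (s := s) (by linarith))
  exact h3.congr_deriv (by ring)

lemma psi_eq (u : ℝ) : psi u = (FF (1 / 4 + I * (u : ℂ) / 2)).re / 2 - Real.log Real.pi / 2 := by
  unfold psi FF
  rw [← logDeriv_Gamma (re_pos u), logDeriv_apply]

lemma psi_hasDeriv (t : ℝ) : HasDerivAt psi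
    ((deriv FF (1 / 4 + I * (t : ℂ) / 2) * (I / 2)).re / 2) t := by
  have h0 := hasDerivAt_FF (re_pos t)
  have h1 : HasDerivAt FF (deriv FF (1 / 4 + I * (t : ℂ) / 2)) (1 / 4 + I * (t : ℂ) / 2) :=
    h0.differentiableAt.hasDerivAt
  have h2 : HasDerivAt (fun z : ℂ => (1 / 4 + I * z / 2 : ℂ)) (I / 2) (t : ℂ) := by
    have := (((hasDerivAt_id (t : ℂ)).const_mul I).div_const 2).const_add (1 / 4 : ℂ)
    simpa using this
  have h3 := (HasDerivAt.comp (t : ℂ) (h₂ := FF) h1 h2).real_of_complex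
  have h4 := (h3.div_const 2).sub_const (Real.log Real.pi / 2)
  refine h4.congr_of_eventuallyEq (Filter.Eventually.of_forall fun u => ?_)
  exact psi_eq u

lemma FF_an : AnalyticOnNhd ℂ FF {s : ℂ | 0 < s.re} := by
  refine DifferentiableOn.analyticOnNhd (fun s hs => ?_)
    (isOpen_lt continuous_const continuous_re)
  exact (hasDerivAt_FF hs).differentiableAt.differentiableWithinAt

lemma im_term (a b : ℝ) (hb : 0 < b) :
    (1 / (((a : ℂ) + I * (b : ℂ))) ^ 2).im = -(2 * a * b / (a ^ 2 + b ^ 2) ^ 2) := by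
  have hpos : 0 < a ^ 2 + b ^ 2 := by positivity
  have hne : ((a : ℂ) + I * (b : ℂ)) ≠ 0 := by
    intro h
    have := congrArg im h
    simp at this
    exact hb.ne' this
  have hne' : ((a : ℂ) - I * (b : ℂ)) ≠ 0 := by
    intro h
    have := congrArg im h
    simp at this
    exact hb.ne' this
  have hm : ((a : ℂ) + I * b) * ((a : ℂ) - I * b) = ((a ^ 2 + b ^ 2 : ℝ) : ℂ) := by
    push_cast
    ring_nf
    rw [I_sq]
    ring
  have h1 : 1 / ((a : ℂ) + I * b) ^ 2 =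
      ((a ^ 2 - b ^ 2 : ℝ) + (-(2 * a * b) : ℝ) * I) / (((a ^ 2 + b ^ 2) ^ 2 : ℝ) : ℂ) := by
    have h2 : (((a ^ 2 + b ^ 2) ^ 2 : ℝ) : ℂ) = (((a : ℂ) + I * b) * ((a : ℂ) - I * b)) ^ 2 := by
      rw [hm]
      push_cast
      ring
    rw [h2, div_eq_div_iff (pow_ne_zero 2 hne) (pow_ne_zero 2 (mul_ne_zero hne hne'))]
    have h3 : (((a ^ 2 - b ^ 2 : ℝ) : ℂ) + ((-(2 * a * b) : ℝ) : ℂ) * I) = ((a : ℂ) - I * b) ^ 2 := by
      push_cast
      ring_nf
      rw [I_sq]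
      ring
    rw [h3]
    ring
  rw [h1, div_ofReal_im]
  have h4 : (((a ^ 2 - b ^ 2 : ℝ) : ℂ) + ((-(2 * a * b) : ℝ) : ℂ) * I).im = -(2 * a * b) := by
    simp only [add_im, mul_im, ofReal_re, ofReal_im, I_re, I_im]
    ring
  rw [h4]
  ring

lemma lower (t : ℝ) (ht : 1 ≤ t) :
    1 / 6000 / t ≤ (deriv FF (1 / 4 + I * (t : ℂ) / 2) * (I / 2)).re / 2 := by
  obtain ⟨s, hs⟩ : ∃ s : ℂ, s = 1 / 4 + I * (t : ℂ) / 2 := ⟨_, rfl⟩
  have hsre : 0 < s.re := by rw [hs]; exact re_pos t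
  rw [← hs, (hasDerivAt_FF hsre).deriv]
  have e1 : ∀ z : ℂ, (z * (I / 2)).re / 2 = -z.im / 4 := by
    intro z
    have : z * (I / 2) = (((z.re : ℂ) + z.im * I)) * (I / 2) := by rw [re_add_im]
    rw [this]
    have h2 : ((z.re : ℂ) + z.im * I) * (I / 2) = ((-(z.im / 2) : ℝ) : ℂ) + ((z.re / 2 : ℝ) : ℂ) * I := by
      push_cast
      ring_nf
      rw [I_sq]
      ring
    rw [h2]
    simp only [add_re, mul_re, ofReal_re, ofReal_im, I_re, I_im]
    ring
  rw [e1]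
  have hb : 0 < t / 2 := by linarith
  have ht0 : 0 < t := by linarith
  have key : ∀ k : ℝ, 0 ≤ k → (1 / (s + (k : ℂ)) ^ 2).im =
      -(2 * (k + 1 / 4) * (t / 2) / ((k + 1 / 4) ^ 2 + (t / 2) ^ 2) ^ 2) := by
    intro k hk
    rw [← im_term (k + 1 / 4) (t / 2) hb]
    congr 3
    rw [hs]
    push_cast
    ring
  have hsum : Summable fun n : ℕ => 1 / (s + ((n : ℂ) + 2)) ^ 2 :=
    Summable.of_norm_bounded summable_inv_sq fun n => norm_gd' n (by linarith)
  have him : (∑' n : ℕ, 1 / (s + ((n : ℂ) + 2)) ^ 2).im =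
      ∑' n : ℕ, -(2 * ((n : ℝ) + 2 + 1 / 4) * (t / 2) / (((n : ℝ) + 2 + 1 / 4) ^ 2 + (t / 2) ^ 2) ^ 2) := by
    rw [im_tsum hsum]
    refine tsum_congr fun n => ?_
    rw [← key ((n : ℝ) + 2) (by positivity)]
    push_cast
    rfl
  have hsum' : Summable fun n : ℕ =>
      2 * ((n : ℝ) + 2 + 1 / 4) * (t / 2) / (((n : ℝ) + 2 + 1 / 4) ^ 2 + (t / 2) ^ 2) ^ 2 := by
    have h1 : Summable fun n : ℕ => (1 / (s + ((n : ℂ) + 2)) ^ 2).im :=
      (hasSum_im hsum.hasSum).summable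
    refine h1.neg.congr fun n => ?_
    have := key ((n : ℝ) + 2) (by positivity)
    push_cast at this
    rw [this, neg_neg]
  have e2 : (1 / s ^ 2).im ≤ 0 := by
    have := key 0 le_rfl
    rw [ofReal_zero, add_zero] at this
    rw [this]
    have : 0 ≤ 2 * (0 + 1 / 4) * (t / 2) / ((0 + 1 / 4) ^ 2 + (t / 2) ^ 2) ^ 2 := by positivity
    linarith
  have e3 : (1 / (s + 1) ^ 2).im ≤ 0 := by
    have := key 1 zero_le_one
    rw [ofReal_one] at this
    rw [this]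
    have : 0 ≤ 2 * (1 + 1 / 4) * (t / 2) / ((1 + 1 / 4) ^ 2 + (t / 2) ^ 2) ^ 2 := by positivity
    linarith
  have e4 : 4 / 6000 / t ≤ ∑' n : ℕ,
      2 * ((n : ℝ) + 2 + 1 / 4) * (t / 2) / (((n : ℝ) + 2 + 1 / 4) ^ 2 + (t / 2) ^ 2) ^ 2 := by
    obtain ⟨m, hm⟩ : ∃ m : ℕ, m = ⌈t⌉₊ := ⟨_, rfl⟩
    have hm1 : t ≤ m := by rw [hm]; exact Nat.le_ceil t
    have hm2 : (m : ℝ) < t + 1 := by rw [hm]; exact Nat.ceil_lt_add_one (by linarith)
    have h1 : ∑ n ∈ Finset.Ico m (2 * m), (1 / (1369 * t ^ 2)) ≤ ∑ n ∈ Finset.Ico m (2 * m),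
        2 * ((n : ℝ) + 2 + 1 / 4) * (t / 2) / (((n : ℝ) + 2 + 1 / 4) ^ 2 + (t / 2) ^ 2) ^ 2 := by
      refine Finset.sum_le_sum fun n hn => ?_
      obtain ⟨hn1, hn2⟩ := Finset.mem_Ico.1 hn
      have hn1' : (m : ℝ) ≤ n := by exact_mod_cast hn1
      have hn2' : (n : ℝ) + 1 ≤ 2 * m := by exact_mod_cast hn2
      obtain ⟨a, ha⟩ : ∃ a : ℝ, a = (n : ℝ) + 2 + 1 / 4 := ⟨_, rfl⟩
      rw [← ha]
      have ha1 : t ≤ a := by linarith
      have ha0 : 0 < a := by linarith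
      have ha2 : a ≤ 6 * t := by linarith
      have hden : a ^ 2 + (t / 2) ^ 2 ≤ 37 * t ^ 2 := by nlinarith
      have hden0 : 0 < a ^ 2 + (t / 2) ^ 2 := by positivity
      have h2 : (a ^ 2 + (t / 2) ^ 2) ^ 2 ≤ (37 * t ^ 2) ^ 2 :=
        pow_le_pow_left₀ hden0.le hden 2
      calc 1 / (1369 * t ^ 2) = t * t / (37 * t ^ 2) ^ 2 := by
            field_simp
            ring
        _ ≤ 2 * a * (t / 2) / (37 * t ^ 2) ^ 2 := by
            apply div_le_div_of_nonneg_right _ (by positivity)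
            nlinarith
        _ ≤ 2 * a * (t / 2) / (a ^ 2 + (t / 2) ^ 2) ^ 2 :=
            div_le_div_of_nonneg_left (by positivity) (by positivity) h2
    have h2 := hsum'.sum_le_tsum (Finset.Ico m (2 * m)) (fun n _ => by positivity)
    have h3 : (4 : ℝ) / 6000 / t ≤ ∑ n ∈ Finset.Ico m (2 * m), (1 / (1369 * t ^ 2)) := by
      rw [Finset.sum_const, Nat.card_Ico, nsmul_eq_mul, show 2 * m - m = m by omega]
      calc (4 : ℝ) / 6000 / t ≤ 1 / (1369 * t) := by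
            rw [div_div, div_le_div_iff₀ (by positivity) (by positivity)]
            nlinarith
        _ = t * (1 / (1369 * t ^ 2)) := by
            field_simp
        _ ≤ (m : ℝ) * (1 / (1369 * t ^ 2)) :=
            mul_le_mul_of_nonneg_right hm1 (by positivity)
    linarith
  rw [add_im, add_im, him, tsum_neg]
  have : 1 / 6000 / t = (4 / 6000 / t) / 4 := by ring
  linarith

theorem th0 : ∃ c : ℝ, 0 < c ∧ ∃ q : ℝ → ℝ, ContinuousOn q (Ici 1) ∧
    ∀ t : ℝ, 1 ≤ t → HasDerivAt psi (q t) t ∧ c / t ≤ q t := by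
  refine ⟨1 / 6000, by norm_num, fun t => (deriv FF (1 / 4 + I * (t : ℂ) / 2) * (I / 2)).re / 2,
    ?_, fun t ht => ⟨psi_hasDeriv t, lower t ht⟩⟩
  apply Continuous.continuousOn
  have h2 : Continuous fun u : ℝ => deriv FF (1 / 4 + I * (u : ℂ) / 2) := by
    rw [continuous_iff_continuousAt]
    intro u
    have h3 : ContinuousAt (deriv FF) (1 / 4 + I * u / 2) :=
      (FF_an.deriv _ (re_pos u)).continuousAt
    exact ContinuousAt.comp (f := fun u : ℝ => (1 / 4 + I * u / 2 : ℂ)) h3 (by fun_prop)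
  exact (continuous_re.comp (h2.mul continuous_const)).div_const 2

end Pool.Agent.T9h31.HC
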