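import Pool.Agent.T9h29.HC.Spec
import Pool.Agent.T9h31.HC.Th0

/-!
# Project HC, piece (TH) (helper31)
-/

set_option autoImplicit false

namespace Pool.Agent.T9h31.HC

/-- **TH** -/
theorem th : Pool.Agent.T9h29.HC.S_TH := th0

end Pool.Agent.T9h31.HC
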